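import Pool.Agent.Lib.MP_7b7e48_nt.PP.Fin

/-!
# A positive proportion of prescribed parities of the number of prime factors in Goldbach representations

`Ω` is the number of prime factors, counted with multiplicity; `i, j` are in `{0, 1}`; `φ` is Euler's function.

(1) Let `q ≥ 1` and `κ > 0`. There are `c, τ > 0` such that for every `B` and every large `X` there is one exceptional modulus
`m > (log X) ^ B` with: for ALL `N` in `[X, X ^ (1 + τ)]` with `φ(N) ≥ κ N` which are not divisible by `m`, and all residue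
classes `a`, `b` modulo `q` which are coprime to `q` and satisfy `a + b ≡ N`, at least `c N` of the `0 < n < N`, `n ≠ N - n`,
satisfy `n ≡ a` (so `N - n ≡ b`), `Ω n ≡ i` and `Ω (N - n) ≡ j` modulo `2`.

(2) The same for even `N` and the `0 < n < N`, `n ≠ N - n`, such that all prime factors of `n` and of `N - n` are `> w`
(`w` fixed, arbitrary).
-/

open Pool.Agent.Lib.OW

namespace Pool.Agent.Results.MP_7b7e48_nt.PositiveProportion

/-- the `0 < n < N` with `n ≠ N - n` and `n ≡ a` modulo `q` such that the numbers of prime factors of `n` and of `N - n`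
(with multiplicity) are congruent to `i` and to `j` modulo `2` -/
def reps (q N a i j : ℕ) : Finset ℕ :=
  (Finset.Ioo 0 N).filter fun n => n ≠ N - n ∧ n % q = a % q ∧
    ArithmeticFunction.cardFactors n % 2 = i ∧ ArithmeticFunction.cardFactors (N - n) % 2 = j

/-- the `0 < n < N` with `n ≠ N - n` such that the numbers of prime factors of `n` and of `N - n` (with multiplicity) are
congruent to `i` and to `j` modulo `2` and all these prime factors are larger than `w` -/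
def roughReps (w N i j : ℕ) : Finset ℕ :=
  (Finset.Ioo 0 N).filter fun n => n ≠ N - n ∧
    ArithmeticFunction.cardFactors n % 2 = i ∧ ArithmeticFunction.cardFactors (N - n) % 2 = j ∧
    ∀ p ∈ (n * (N - n)).primeFactors, w < p

theorem result :
    (∀ q : ℕ, 1 ≤ q → ∀ κ : ℝ, 0 < κ → ∃ c τ : ℝ, 0 < c ∧ 0 < τ ∧ ∀ B : ℕ, ∃ X₀ : ℕ, ∀ X : ℕ, X₀ ≤ X →
      ∃ m : ℕ, (Real.log X) ^ B < m ∧ ∀ N : ℕ, X ≤ N → (N : ℝ) ≤ (X : ℝ) ^ (1 + τ) → κ * N ≤ N.totient → ¬ m ∣ N →
      ∀ a b : ℕ, a.Coprime q → b.Coprime q → a + b ≡ N [MOD q] → ∀ i j : ℕ, i < 2 → j < 2 →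
      c * N ≤ ((reps q N a i j).card : ℝ)) ∧
    (∀ w : ℕ, ∀ κ : ℝ, 0 < κ → ∃ c τ : ℝ, 0 < c ∧ 0 < τ ∧ ∀ B : ℕ, ∃ X₀ : ℕ, ∀ X : ℕ, X₀ ≤ X →
      ∃ m : ℕ, (Real.log X) ^ B < m ∧ ∀ N : ℕ, X ≤ N → (N : ℝ) ≤ (X : ℝ) ^ (1 + τ) → κ * N ≤ N.totient → ¬ m ∣ N →
      Even N → ∀ i j : ℕ, i < 2 → j < 2 → c * N ≤ ((roughReps w N i j).card : ℝ)) :=
  Pool.Agent.Lib.PP.fin

end Pool.Agent.Results.MP_7b7e48_nt.PositiveProportion
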