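import Pool.Agent.Lib.G6.Fin7
import Pool.Agent.Lib.G8.L9

/-!
# MP_7b7e48: the Hardy-Littlewood formula for a prime plus a number with exactly `k` prime factors in very short intervals
-/

set_option autoImplicit false

open Finset

namespace Pool.Agent.Results.MP_7b7e48_nt.PrimePlusAlmostPrimeFormula

/-- the singular series `S(N) = 2 ∏_{p > 2} (1 - 1/(p-1)^2) ∏_{p ∣ N, p > 2} (p-1)/(p-2)` of an even number `N` -/
noncomputable def sing (N : ℕ) : ℝ :=
  2 * (∏' p : ℕ, if p.Prime ∧ 2 < p then 1 - 1 / ((p : ℝ) - 1) ^ 2 else 1) *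
    ∏ p ∈ N.primeFactors.filter (fun p => 2 < p), ((p : ℝ) - 1) / ((p : ℝ) - 2)

/-- number of the primes `p < N` such that `N - p` has exactly `k` prime factors, counted with multiplicity -/
def full (k N : ℕ) : ℕ := ((range N).filter fun p => p.Prime ∧ (N - p).primeFactorsList.length = k).card

/-- number of the primes `p < N` such that `N - p` has exactly `k` prime factors, counted with multiplicity, the least one in `S` -/
def least (k : ℕ) (S : Finset ℕ) (N : ℕ) : ℕ :=
  ((range N).filter fun p => p.Prime ∧ (N - p).primeFactorsList.length = k ∧ (N - p).minFac ∈ S).card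

/-- the main term `S(N) N / (log N)^2 · D` -/
noncomputable def main (D : ℝ) (N : ℕ) : ℝ := sing N * N / (Real.log N) ^ 2 * D

/-- `∑_{q ∈ S} 1/q · (log (log N / log q))^(k-2) / (k-2)!` -/
noncomputable def dens (k : ℕ) (S : Finset ℕ) (N : ℕ) : ℝ :=
  ∑ q ∈ S, 1 / (q : ℝ) * ((Real.log (Real.log N / Real.log q)) ^ (k - 2) / (Nat.factorial (k - 2) : ℝ))

open Classical in
/-- the even numbers `N` of `(X, X + H]` for which `r N` differs from `M N` by more than `ε M N` -/
noncomputable def exceptions (ε : ℝ) (r : ℕ → ℕ) (M : ℕ → ℝ) (X H : ℕ) : Finset ℕ :=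
  (Ioc X (X + H)).filter fun N => Even N ∧ ε * M N < |(r N : ℝ) - M N|

/-- **Theorem.** For `k ≥ 2` and `A`, `B` there are `c₀`, `C` such that for every `ε > 0` there are `η > 0`, `X₀` with the following property
for all `X ≥ X₀` and `H ≤ X`. (1) For every real `w' ≤ X^η` with `w' (log X)^C ≤ H` and EVERY set `S` of primes in `[(log X)^c₀, w']` with
`∑_{q ∈ S} 1/q ≥ (log X)^(-B)`: for all but at most `H / (log X)^A` of the even `N` in `(X, X + H]` the number of the representations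
`N = p + m`, `p` prime, `m` with exactly `k` prime factors, the least one in `S`, is
`(1 + O(ε)) S(N) N / (log N)^2 ∑_{q ∈ S} 1/q (log (log N / log q))^(k-2) / (k-2)!`. (2) If `exp ((log X)^(1-η)) ≤ H`: for all but at most
`H / (log X)^A` of the even `N` in `(X, X + H]` the number of all representations `N = p + m`, `p` prime, `m` with exactly `k` prime factors,
is `(1 + O(ε)) S(N) N / (log N)^2 (log log N)^(k-1) / (k-1)!`. -/
theorem result : ∀ k A B : ℕ, 2 ≤ k → ∃ c₀ C : ℕ, ∀ ε : ℝ, 0 < ε → ∃ η : ℝ, 0 < η ∧ ∃ X₀ : ℕ, ∀ X H : ℕ, X₀ ≤ X → H ≤ X →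
    (∀ (w' : ℝ) (S : Finset ℕ), w' ≤ (X : ℝ) ^ η → w' * (Real.log X) ^ C ≤ H →
      (∀ q ∈ S, q.Prime ∧ (Real.log X) ^ c₀ ≤ q ∧ (q : ℝ) ≤ w') → 1 / (Real.log X) ^ B ≤ ∑ q ∈ S, 1 / (q : ℝ) →
      ((exceptions ε (least k S) (fun N => main (dens k S N) N) X H).card : ℝ) ≤ H / (Real.log X) ^ A) ∧
    (Real.exp ((Real.log X) ^ (1 - η)) ≤ H →
      ((exceptions ε (full k) (fun N => main ((Real.log (Real.log N)) ^ (k - 1) / (Nat.factorial (k - 1) : ℝ)) N) X H).card : ℝ) ≤
        H / (Real.log X) ^ A) := by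
  classical
  intro k A B hk
  have hS : ∀ N : ℕ, Even N → Pool.Agent.Lib.G3.SS N = sing N := by
    intro N hN
    unfold Pool.Agent.Lib.G3.SS Pool.Agent.Lib.G3.C2 Pool.Agent.Lib.G3.tc sing
    rw [if_pos hN]
  obtain ⟨c₀, C, h1⟩ := Pool.Agent.Lib.G8.g8 k A B hk
  refine ⟨c₀, C, fun ε hε => ?_⟩
  obtain ⟨η1, hη1, X1, h1⟩ := h1 ε hε
  obtain ⟨η2, hη2, -, X2, h2⟩ := Pool.Agent.Lib.G6.g7 k A hk ε hε
  refine ⟨min η1 η2, lt_min hη1 hη2, max (max X1 X2) 3, fun X H hX hHX => ?_⟩
  have hXa : X1 ≤ X := (le_max_left _ _).trans ((le_max_left _ _).trans hX)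
  have hXb : X2 ≤ X := (le_max_right _ _).trans ((le_max_left _ _).trans hX)
  have hX3 : 3 ≤ X := (le_max_right _ _).trans hX
  have hX3r : (3 : ℝ) ≤ X := by exact_mod_cast hX3
  have hl1 : 1 < Real.log X := by
    rw [Real.lt_log_iff_exp_lt (by linarith)]
    have := Real.exp_one_lt_d9
    linarith
  refine ⟨?_, ?_⟩
  · intro w' S hw' hH1 hSq hsum
    have hw2 : w' ≤ (X : ℝ) ^ η1 := hw'.trans (Real.rpow_le_rpow_of_exponent_le (by linarith) (min_le_left _ _))
    refine le_trans ?_ (h1 X H w' S hXa hSq hw2 hH1 hHX hsum)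
    have hsub : exceptions ε (least k S) (fun N => main (dens k S N) N) X H ⊆
        ((Ioc X (X + H)).filter fun N : ℕ => Even N ∧ ε * Pool.Agent.Lib.G8.MS k S N <
          |(Pool.Agent.Lib.G8.TS k S N : ℝ) - Pool.Agent.Lib.G8.MS k S N|) := by
      intro N hN
      unfold exceptions at hN
      rw [mem_filter] at hN ⊢
      obtain ⟨h4, h5, h6⟩ := hN
      refine ⟨h4, h5, ?_⟩
      have a1 : Pool.Agent.Lib.G8.MS k S N = main (dens k S N) N := by
        unfold Pool.Agent.Lib.G8.MS Pool.Agent.Lib.G8.mL main dens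
        rw [hS N h5, sum_div, ← mul_assoc, mul_div_assoc]
        congr 1
        refine sum_congr rfl fun q _ => ?_
        rw [mul_div_assoc]
      rw [a1]
      exact h6
    exact_mod_cast card_le_card hsub
  · intro hH1
    have hH2 : Real.exp ((Real.log X) ^ (1 - η2)) ≤ H := by
      refine le_trans (Real.exp_le_exp.mpr ?_) hH1
      exact Real.rpow_le_rpow_of_exponent_le hl1.le (by linarith [min_le_right η1 η2])
    refine le_trans ?_ (h2 X H hXb hH2 hHX)
    have hsub : exceptions ε (full k) (fun N => main ((Real.log (Real.log N)) ^ (k - 1) / (Nat.factorial (k - 1) : ℝ)) N) X H ⊆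
        ((Ioc X (X + H)).filter fun N : ℕ => Even N ∧ ε * Pool.Agent.Lib.G6.MK k N <
          |(Pool.Agent.Lib.G6.TK k N : ℝ) - Pool.Agent.Lib.G6.MK k N|) := by
      intro N hN
      unfold exceptions at hN
      rw [mem_filter] at hN ⊢
      obtain ⟨h4, h5, h6⟩ := hN
      refine ⟨h4, h5, ?_⟩
      have a1 : Pool.Agent.Lib.G6.MK k N = main ((Real.log (Real.log N)) ^ (k - 1) / (Nat.factorial (k - 1) : ℝ)) N := by
        unfold Pool.Agent.Lib.G6.MK main
        rw [hS N h5]
        ring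
      rw [a1]
      exact h6
    exact_mod_cast card_le_card hsub

end Pool.Agent.Results.MP_7b7e48_nt.PrimePlusAlmostPrimeFormula
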