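import Pool.Agent.Lib.MP_61161c_nt.EX.Fin

/-!
# Sums of two almost primes with prescribed parities: a sparse exceptional set
-/

set_option autoImplicit false

open Finset

namespace Pool.Agent.Results.MP_7b7e48_nt.SparseExceptions

open Classical in
/-- The ordered representations `N = a + b` in positive integers `a ≠ b` such that every prime factor of `a` and every prime factor of `b` is larger than
`N^(1/C)`, `a` and `b` have fewer than `C` prime factors (with multiplicity), and the numbers of prime factors of `a` and of `b` (with multiplicity)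
are congruent to `i` and to `j` modulo `2`. -/
noncomputable def reps (C N i j : ℕ) : Finset (ℕ × ℕ) := (antidiagonal N).filter fun x =>
  0 < x.1 ∧ 0 < x.2 ∧ x.1 ≠ x.2 ∧
  (∀ p : ℕ, p.Prime → (p ∣ x.1 ∨ p ∣ x.2) → (N : ℝ) ^ (1 / (C : ℝ)) < p) ∧
  ArithmeticFunction.cardFactors x.1 < C ∧ ArithmeticFunction.cardFactors x.2 < C ∧
  ArithmeticFunction.cardFactors x.1 % 2 = i ∧ ArithmeticFunction.cardFactors x.2 % 2 = j

open Classical in
/-- The even numbers `N ≤ X` which for some pair of parities have fewer than `N^(1-ε)` representations of this kind. -/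
noncomputable def exceptions (ε : ℝ) (C X : ℕ) : Finset ℕ := (Icc 1 X).filter fun N =>
  Even N ∧ ∃ i j : ℕ, i < 2 ∧ j < 2 ∧ ((reps C N i j).card : ℝ) < (N : ℝ) ^ (1 - ε)

/-- a positive integer `< N` all of whose prime factors are larger than `N^(1/C)` has fewer than `C` prime factors -/
theorem omega_lt (C N a : ℕ) (hC : 0 < C) (ha : 0 < a) (haN : a < N)
    (h : ∀ p : ℕ, p.Prime → p ∣ a → (N : ℝ) ^ (1 / (C : ℝ)) < p) : ArithmeticFunction.cardFactors a < C := by
  by_contra hc
  push Not at hc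
  have hN : (0 : ℝ) < N := by
    have : 0 < N := by omega
    exact_mod_cast this
  have hN1 : (1 : ℝ) ≤ N := by
    have : 1 ≤ N := by omega
    exact_mod_cast this
  have h1 : ∀ l : List ℕ, (∀ p ∈ l, (N : ℝ) ^ (1 / (C : ℝ)) ≤ p) → ((N : ℝ) ^ (1 / (C : ℝ))) ^ l.length ≤ (l.prod : ℝ) := by
    intro l
    induction l with
    | nil => intro _; simp
    | cons q l ih =>
      intro hl
      have h2 := ih fun p hp => hl p (List.mem_cons_of_mem _ hp)
      have h3 := hl q (List.mem_cons_self)
      rw [List.length_cons, List.prod_cons, Nat.cast_mul, pow_succ, mul_comm]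
      exact mul_le_mul h3 h2 (by positivity) (by positivity)
  have h2 := h1 a.primeFactorsList fun p hp => (h p (Nat.prime_of_mem_primeFactorsList hp) (Nat.dvd_of_mem_primeFactorsList hp)).le
  rw [Nat.prod_primeFactorsList ha.ne', ← ArithmeticFunction.cardFactors_apply] at h2
  have h3 : (N : ℝ) ≤ ((N : ℝ) ^ (1 / (C : ℝ))) ^ (ArithmeticFunction.cardFactors a) := by
    have h4 : ((N : ℝ) ^ (1 / (C : ℝ))) ^ C = N := by
      rw [← Real.rpow_natCast, ← Real.rpow_mul hN.le, one_div, inv_mul_cancel₀ (by exact_mod_cast hC.ne'), Real.rpow_one]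
    calc (N : ℝ) = ((N : ℝ) ^ (1 / (C : ℝ))) ^ C := h4.symm
      _ ≤ _ := pow_le_pow_right₀ (Real.one_le_rpow hN1 (by positivity)) hc
  have h5 : (a : ℝ) < N := by exact_mod_cast haN
  linarith

/-- **Theorem.** For every `ε > 0` there are `C` and `X0` such that for `X ≥ X0` all but at most `X^ε` of the even numbers `N ≤ X` have, for each of
the four pairs of parities `i`, `j`, at least `N^(1-ε)` representations `N = a + b`, `a ≠ b`, with all prime factors of `a` and `b` larger than
`N^(1/C)`, `Ω(a) < C`, `Ω(b) < C`, `Ω(a) = i`, `Ω(b) = j` modulo `2`. -/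
theorem result : ∀ ε : ℝ, 0 < ε → ∃ C X0 : ℕ, ∀ X : ℕ, X0 ≤ X → ((exceptions ε C X).card : ℝ) ≤ (X : ℝ) ^ ε := by
  classical
  intro ε hε
  obtain ⟨C, X0, hC, h⟩ := Pool.Agent.Lib.EX.ex_main ε hε
  refine ⟨C, X0, fun X hX => le_trans ?_ (h X hX)⟩
  have hsub : exceptions ε C X ⊆ (Icc 1 X).filter fun N => Even N ∧ ∃ i j : ℕ, i < 2 ∧ j < 2 ∧
      ((Pool.Agent.Lib.EX.Rp C N i j).card : ℝ) < (N : ℝ) ^ (1 - ε) := by
    intro N hN
    unfold exceptions at hN
    rw [mem_filter] at hN ⊢
    obtain ⟨hN1, hN2, i, j, hi, hj, hN3⟩ := hN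
    refine ⟨hN1, hN2, i, j, hi, hj, lt_of_le_of_lt ?_ hN3⟩
    have hinj : (Pool.Agent.Lib.EX.Rp C N i j).card ≤ (reps C N i j).card := by
      refine card_le_card_of_injOn (fun a => (a, N - a)) (fun a ha => ?_) (fun a _ b _ hab => (Prod.ext_iff.1 hab).1)
      rw [mem_coe] at ha ⊢
      unfold Pool.Agent.Lib.EX.Rp at ha
      rw [mem_filter, mem_range] at ha
      obtain ⟨h1, h2, h3, h4, h5, h6⟩ := ha
      unfold reps
      rw [mem_filter, HasAntidiagonal.mem_antidiagonal]
      exact ⟨Nat.add_sub_cancel' h1.le, h2, Nat.sub_pos_of_lt h1, h3, h4,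
        omega_lt C N a hC h2 h1 fun p hp hd => h4 p hp (Or.inl hd),
        omega_lt C N (N - a) hC (by omega) (by omega) fun p hp hd => h4 p hp (Or.inr hd), h5, h6⟩
    exact_mod_cast hinj
  exact_mod_cast card_le_card hsub

end Pool.Agent.Results.MP_7b7e48_nt.SparseExceptions
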